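import Mathlib
import Pool.Agent.H93.FG.Zal
import Pool.Agent.H87.FG.MatA

set_option autoImplicit false
set_option linter.unusedSectionVars false

/-!
# The Tseitin ideal of the complete graph with `q` vertices and arbitrary charges, and the world
-/

namespace Pool.Agent.H51.FG

open Finset Pool.Agent.H93.FG

section Tse

variable {q : ℕ} {K : Type} [Field K]

/-- the product of the signs of the vertices in `U` -/
def sg (s : Fin q → K) (U : Finset (Fin q)) : K := ∏ v ∈ U, s v

theorem sg_sq {s : Fin q → K} (hs : ∀ v, s v * s v = 1) (U : Finset (Fin q)) : sg s U * sg s U = 1 := by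
  unfold sg
  rw [← prod_mul_distrib]
  exact prod_eq_one fun v _ => hs v

theorem sg_ne {s : Fin q → K} (hs : ∀ v, s v * s v = 1) (U : Finset (Fin q)) : sg s U ≠ 0 := fun h => by
  have h1 := sg_sq hs U
  rw [h, zero_mul] at h1
  exact zero_ne_one h1

theorem sg_symmDiff {s : Fin q → K} (hs : ∀ v, s v * s v = 1) (U W : Finset (Fin q)) :
    sg s (symmDiff U W) = sg s U * sg s W := by
  have h1 : sg s U = sg s (U \ W) * sg s (U ∩ W) := by
    unfold sg
    rw [← prod_union (disjoint_sdiff_inter U W), sdiff_union_inter]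
  have h2 : sg s W = sg s (W \ U) * sg s (U ∩ W) := by
    unfold sg
    rw [inter_comm U W, ← prod_union (disjoint_sdiff_inter W U), sdiff_union_inter]
  have h4 : sg s (symmDiff U W) = sg s (U \ W) * sg s (W \ U) := by
    unfold sg
    rw [← prod_union disjoint_sdiff_sdiff]
    rfl
  rw [h1, h2, h4]
  calc sg s (U \ W) * sg s (W \ U) = sg s (U \ W) * sg s (W \ U) * (sg s (U ∩ W) * sg s (U ∩ W)) := by
        rw [sg_sq hs, mul_one]
    _ = _ := by ring

/-- the ideal up to degree `k` -/
def Zk (s : Fin q → K) (k : ℕ) : Submodule K ((Ed q → Bool) → K) :=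
  Submodule.span K {f | ∃ (S : Finset (Ed q)) (U : Finset (Fin q)), S.card ≤ k ∧
    (symmDiff S (bd U)).card ≤ k ∧ 2 * U.card < q ∧
    f = chi K S - sg s U • chi K (symmDiff S (bd U))}

theorem zk_mono {s : Fin q → K} {a b : ℕ} (h : a ≤ b) : Zk s a ≤ Zk s b := by
  apply Submodule.span_mono
  rintro f ⟨S, U, h1, h2, h3, rfl⟩
  exact ⟨S, U, h1.trans h, h2.trans h, h3, rfl⟩

theorem zk_mul {s : Fin q → K} {a b : ℕ} {f g : (Ed q → Bool) → K} (hf : f ∈ Zk s a)
    (hg : g ∈ Dg (Ed q) K b) : f * g ∈ Zk s (a + b) := by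
  have h1 : f * g ∈ Zk s a * Dg (Ed q) K b := Submodule.mul_mem_mul hf hg
  unfold Zk Dg at h1
  rw [Submodule.span_mul_span] at h1
  revert h1
  apply SetLike.le_def.1
  rw [Submodule.span_le]
  rintro _ ⟨_, ⟨S, U, h1, h2, h3, rfl⟩, _, ⟨T, hT, rfl⟩, rfl⟩
  show (chi K S - sg s U • chi K (symmDiff S (bd U))) * chi K T ∈ _
  rw [sub_mul, smul_mul_assoc, chi_mul, chi_mul]
  have h4 : symmDiff (symmDiff S (bd U)) T = symmDiff (symmDiff S T) (bd U) := by
    rw [symmDiff_assoc, symmDiff_comm (bd U) T, ← symmDiff_assoc]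
  have hc : ∀ A : Finset (Ed q), A.card ≤ a → (symmDiff A T).card ≤ a + b := fun A hA =>
    ((card_le_card symmDiff_le_sup).trans (card_union_le A T)).trans (by omega)
  apply Submodule.subset_span
  refine ⟨symmDiff S T, U, hc S h1, ?_, h3, by rw [h4]⟩
  rw [← h4]
  exact hc _ h2

open scoped Classical in
/-- the sign of `S` relative to `T` -/
noncomputable def lam (s : Fin q → K) (S : Finset (Ed q)) : K :=
  if h : ∃ U : Finset (Fin q), 2 * U.card < q ∧ bd U = S then sg s (Classical.choose h) else 0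

theorem lam_bd {s : Fin q → K} {U : Finset (Fin q)} (hU : 2 * U.card < q) : lam s (bd U) = sg s U := by
  unfold lam
  have h : ∃ W : Finset (Fin q), 2 * W.card < q ∧ bd W = bd U := ⟨U, hU, rfl⟩
  rw [dif_pos h]
  have h1 := Classical.choose_spec h
  rw [bd_inj h1.1 hU h1.2]

open scoped Classical in
/-- the reduction to representatives -/
noncomputable def Rk (s : Fin q → K) (k : ℕ) : ((Ed q → Bool) → K) →ₗ[K] ((Ed q → Bool) → K) :=
  ∑ S ∈ (univ : Finset (Finset (Ed q))).filter (fun S => S.card ≤ k),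
    LinearMap.smulRight (cf S)
      ((lam s (symmDiff S (rep (cls k S))) * ((2 : K) ^ Fintype.card (Ed q))⁻¹) •
        chi K (rep (cls k S)))

theorem Rk_chi (h2 : (2 : K) ≠ 0) {s : Fin q → K} {k : ℕ} {S : Finset (Ed q)} (hS : S.card ≤ k) :
    Rk s k (chi K S) = lam s (symmDiff S (rep (cls k S))) • chi K (rep (cls k S)) := by
  classical
  unfold Rk
  rw [LinearMap.sum_apply]
  rw [Finset.sum_eq_single S]
  · rw [LinearMap.smulRight_apply, cf_chi h2, if_pos rfl, smul_smul]
    congr 1
    have h3 : (2 : K) ^ Fintype.card (Ed q) ≠ 0 := pow_ne_zero _ h2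
    field_simp
  · intro T _ hT
    rw [LinearMap.smulRight_apply, cf_chi h2, if_neg hT, zero_smul]
  · intro h
    exact absurd (mem_filter.2 ⟨mem_univ S, hS⟩) h

theorem Rk_zero (h2 : (2 : K) ≠ 0) {s : Fin q → K} (hs : ∀ v, s v * s v = 1) {k : ℕ} (hk : 9 * k < q * q)
    (hq : 0 < q) {f : (Ed q → Bool) → K} (hf : f ∈ Zk s k) : Rk s k f = 0 := by
  have h1 : Zk s k ≤ LinearMap.ker (Rk s k) := by
    unfold Zk
    rw [Submodule.span_le]
    rintro _ ⟨S, U, h3, h4, h5, rfl⟩
    show _ ∈ LinearMap.ker _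
    rw [LinearMap.mem_ker, map_sub, map_smul, Rk_chi h2 h3, Rk_chi h2 h4]
    have hc := cls_eq hk h3 h4 h5 rfl
    rw [← hc]
    have hne : (cls k S).Nonempty := ⟨S, self_mem_cls hq h3⟩
    obtain ⟨h6, _⟩ := rep_spec hne
    set r := rep (cls k S) with hr
    rw [mem_cls] at h6
    obtain ⟨h7, W, h8, h9⟩ := h6
    have h10 : symmDiff S r = bd W := by
      rw [h9, ← symmDiff_assoc, symmDiff_self, bot_symmDiff]
    have h11 : S = symmDiff (symmDiff S (bd U)) (bd U) := by
      rw [symmDiff_assoc, symmDiff_self, symmDiff_bot]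
    obtain ⟨h12, h13⟩ := shift_two hk h4 h3 h7 h5 h8 h11 h9
    have h14 : symmDiff (symmDiff S (bd U)) r = bd (symmDiff U W) := by
      rw [h13, ← symmDiff_assoc, symmDiff_self, bot_symmDiff]
    rw [h10, h14, lam_bd h8, lam_bd h12, sg_symmDiff hs, smul_smul, ← mul_assoc, sg_sq hs, one_mul, sub_self]
  exact LinearMap.mem_ker.1 (h1 hf)

theorem zk_of_dg (h2 : (2 : K) ≠ 0) {s : Fin q → K} (hs : ∀ v, s v * s v = 1) {k b : ℕ}
    (hk : 9 * k < q * q) (hb : b ≤ k) {f : (Ed q → Bool) → K} (hf : f ∈ Zk s k) (hd : f ∈ Dg (Ed q) K b) :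
    f ∈ Zk s b := by
  have hq : 0 < q := by
    by_contra h0
    have : q = 0 := by omega
    subst this
    omega
  have h1 : ∀ g ∈ Dg (Ed q) K b, g - Rk s k g ∈ Zk s b := by
    intro g hg
    unfold Dg at hg
    induction hg using Submodule.span_induction with
    | mem g hg =>
      obtain ⟨S, hS, rfl⟩ := hg
      have hS' : S.card ≤ k := hS.trans hb
      rw [Rk_chi h2 hS']
      have hne : (cls k S).Nonempty := ⟨S, self_mem_cls hq hS'⟩
      obtain ⟨h6, h7⟩ := rep_spec hne
      have h8 := h7 S (self_mem_cls hq hS')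
      rw [mem_cls] at h6
      obtain ⟨h9, W, h10, h11⟩ := h6
      have h12 : symmDiff S (rep (cls k S)) = bd W := by
        rw [h11, ← symmDiff_assoc, symmDiff_self, bot_symmDiff]
      rw [h12, lam_bd h10]
      apply Submodule.subset_span
      refine ⟨S, W, hS, ?_, h10, by rw [← h11]⟩
      rw [← h11]
      exact h8.trans hS
    | zero => simp
    | add g g' _ _ h h' =>
      rw [map_add]
      have : g + g' - (Rk s k g + Rk s k g') = (g - Rk s k g) + (g' - Rk s k g') := by
        ring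
      rw [this]
      exact Submodule.add_mem _ h h'
    | smul c g _ h =>
      rw [map_smul, ← smul_sub]
      exact Submodule.smul_mem _ _ h
  have h3 := h1 f hd
  rw [Rk_zero h2 hs hk hq hf, sub_zero] at h3
  exact h3

/-- one is not in the ideal -/
theorem one_notMem_zk (h2 : (2 : K) ≠ 0) {s : Fin q → K} (hs : ∀ v, s v * s v = 1) {k : ℕ}
    (hk : 9 * k < q * q) : (1 : (Ed q → Bool) → K) ∉ Zk s k := by
  intro h
  have hq : 0 < q := by
    by_contra h0
    have : q = 0 := by omega
    subst this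
    omega
  -- the ideal of level `0` is zero
  have h1 : (1 : (Ed q → Bool) → K) ∈ Zk s 0 := zk_of_dg h2 hs hk (Nat.zero_le _) h (one_mem 0)
  have h3 : Zk s 0 ≤ ⊥ := by
    unfold Zk
    rw [Submodule.span_le]
    rintro _ ⟨S, U, h4, h5, h6, rfl⟩
    have h7 : S = ∅ := card_eq_zero.1 (Nat.le_zero.1 h4)
    have h8 : symmDiff S (bd U) = ∅ := card_eq_zero.1 (Nat.le_zero.1 h5)
    have h9 : bd U = ∅ := by
      rw [h7] at h8
      have h10 : symmDiff (∅ : Finset (Ed q)) (bd U) = bd U := bot_symmDiff _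
      rw [h10] at h8
      exact h8
    have h10 : U = ∅ := by
      rcases bd_eq_empty h9 with h11 | h11
      · exact h11
      · rw [h11, card_univ, Fintype.card_fin] at h6
        omega
    rw [h8, h7, h10]
    simp [sg]
  have h4 := (Submodule.mem_bot K).1 (h3 h1)
  exact one_ne_zero h4

/-- the algebra of the Tseitin contradiction on the complete graph -/
noncomputable def alg (q : ℕ) (k : Type) [Field k] (h2 : (2 : k) ≠ 0) (s : Fin q → k)
    (hs : ∀ v, s v * s v = 1) (K : ℕ) (hK : 9 * K < q ^ 2) : Pool.Agent.H67.FG.Alg k (Ed q → Bool) where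
  Deg := Dg (Ed q) k
  Z := Zk s K
  K := K
  one := one_mem
  mono := dg_mono
  mul := dg_mul
  zmul := by
    intro a b f h hab hf hh hz
    have h1 : h ∈ Zk s b := zk_of_dg h2 hs (by rw [← sq]; exact hK) (by omega) hz hh
    rw [mul_comm]
    exact zk_mono (by omega) (zk_mul h1 hf)
  ne := one_notMem_zk h2 hs (by rw [← sq]; exact hK)

/-- the sign of a vertex is wrong -/
theorem wrong_mem {s : Fin q → K} {k : ℕ} (hq : 2 < q) (hk : q - 1 ≤ k) (v : Fin q) :
    (1 - s v • chi K (bd {v}) : (Ed q → Bool) → K) ∈ Zk s k := by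
  apply Submodule.subset_span
  have h3 : symmDiff (∅ : Finset (Ed q)) (bd {v}) = bd {v} := bot_symmDiff _
  refine ⟨∅, {v}, by simp, ?_, by simpa using hq, ?_⟩
  · rw [h3]
    exact (card_bd_le v).trans hk
  · rw [h3, chi_empty]
    simp [sg]

end Tse

section World

open Pool.Agent.H67.FG

/-- the numbers of edges at `v` -/
theorem card_at {q : ℕ} (v : Fin q) (y : Ed q → Bool) :
    nb v y + (univ.filter fun e : Ed q => v ∈ e.1 ∧ y e = false).card = q - 1 := by
  classical
  rw [← Pool.Agent.H87.FG.card_Eg v]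
  unfold nb
  rw [← card_union_of_disjoint]
  · congr 1
    ext e
    simp only [mem_union, mem_filter, mem_univ, true_and, Pool.Agent.H87.FG.Eg]
    cases y e <;> simp
  · rw [disjoint_left]
    intro e h1 h2
    rw [mem_filter] at h1 h2
    rw [h1.2.2] at h2
    exact absurd h2.2.2 (by simp)

theorem world (k : Type) [Field k] (h2 : (2 : k) ≠ 0) (q K : ℕ) (hq : 3 < q) (hK : 9 * K < q ^ 2)
    (hqK : q - 1 ≤ K) : ∃ 𝓦 : MW k ({e : Sym2 (Fin q) // ¬ e.IsDiag} → Bool)
      ({x : Fin q × Fin q // x.1 ≠ x.2} ⊕ Unit), 𝓦.c = q - 1 ∧ 𝓦.K = K := by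
  classical
  have v0 : Fin q := ⟨0, by omega⟩
  set s : Fin q → k := fun v => (-1) ^ (q - 1 + if v = v0 then 1 else 0) with hsdef
  have hs : ∀ v, s v * s v = 1 := by
    intro v
    rw [hsdef]
    simp only
    rw [← pow_add, ← two_mul, pow_mul]
    simp
  obtain ⟨𝓦, h3, h4⟩ := Pool.Agent.H87.FG.mat_of k q v0 (alg q k h2 s hs K hK) (fun E P hP => by
      refine dg_junta h2 E _ (fun y y' h => ?_)
      simp only [Pool.Agent.H67.FG.ind, hP y y' h]) (fun v => by
      have h5 : (Pool.Agent.H67.FG.ind (fun y : Ed q → Bool =>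
          ¬ Even ((univ.filter fun e : Ed q => v ∈ e.1 ∧ y e = false).card + if v = v0 then 1 else 0)) :
            (Ed q → Bool) → k) = (2⁻¹ : k) • (1 - s v • chi k (bd {v})) := by
        funext y
        have h6 : s v * chi k (bd {v}) y =
            (-1) ^ ((univ.filter fun e : Ed q => v ∈ e.1 ∧ y e = false).card + if v = v0 then 1 else 0) := by
          rw [chi_bd_single, hsdef, ← card_at v y]
          simp only
          rw [← pow_add]
          have h7 : nb v y + (univ.filter fun e : Ed q => v ∈ e.1 ∧ y e = false).card +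
              (if v = v0 then 1 else 0) + nb v y = 2 * nb v y +
              ((univ.filter fun e : Ed q => v ∈ e.1 ∧ y e = false).card + if v = v0 then 1 else 0) := by
            ring
          rw [h7, pow_add, pow_mul]
          simp
        simp only [Pi.smul_apply, Pi.sub_apply, Pi.one_apply, smul_eq_mul, h6,
          Pool.Agent.H67.FG.ind]
        by_cases h : Even ((univ.filter fun e : Ed q => v ∈ e.1 ∧ y e = false).card + if v = v0 then 1 else 0)
        · rw [if_neg (not_not.2 h), h.neg_one_pow]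
          simp
        · rw [if_pos h, (Nat.not_even_iff_odd.1 h).neg_one_pow]
          field_simp
          ring
      rw [h5]
      exact Submodule.smul_mem _ _ (wrong_mem (by omega) hqK v))
  refine ⟨𝓦, h4, ?_⟩
  rw [h3]
  rfl

end World

end Pool.Agent.H51.FG
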